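import Pool.Agent.H5St.Reach

/-!
# The three-valued density
-/

set_option autoImplicit false

open Finset Classical

namespace Pool.Agent.H5St

open Pool.Agent.PlunTwo Pool.Agent.PlunRow

/-- The density of the flow which leaves a point of `A`: three values on the row `0`, one value on
the row `1`. -/
noncomputable def dd (A : Set (ℕ × ℕ)) (e1 e2 e3 e4 c1 c2 c3 b : ℝ) (p : ℕ × ℕ) : ℝ :=
  if p.2 = 0 then e1 * cutw A c1 0 p.1 + e2 * cutw A c2 0 p.1 + e3 * cutw A c3 0 p.1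
  else e4 * cutw A b 1 p.1

theorem dd_nonneg {A : Set (ℕ × ℕ)} {e1 e2 e3 e4 c1 c2 c3 b : ℝ} (h1 : 0 ≤ e1) (h2 : 0 ≤ e2)
    (h3 : 0 ≤ e3) (h4 : 0 ≤ e4) (p : ℕ × ℕ) : 0 ≤ dd A e1 e2 e3 e4 c1 c2 c3 b p := by
  unfold dd
  have := cutw_nonneg A c1 0 p.1
  have := cutw_nonneg A c2 0 p.1
  have := cutw_nonneg A c3 0 p.1
  have := cutw_nonneg A b 1 p.1
  split_ifs <;> positivity

/-- The flow which leaves `Z`. -/
theorem sum_dd {q : ℕ} {A : Set (ℕ × ℕ)} {Z : Finset (ℕ × ℕ)} (hZ : Z ⊆ src q A)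
    {e1 e2 e3 e4 c1 c2 c3 b : ℝ} (h1 : 0 ≤ e1) (h2 : 0 ≤ e2) (h3 : 0 ≤ e3) (h4 : 0 ≤ e4)
    (hc1 : 0 ≤ c1) (hc2 : 0 ≤ c2) (hc3 : 0 ≤ c3) (hb : 0 ≤ b)
    (hr1 : c1 ≤ row 0 A (q + 1)) (hr2 : c2 ≤ row 0 A (q + 1)) (hr3 : c3 ≤ row 0 A (q + 1))
    (hrb : b ≤ row 1 A (q + 1)) {z0 z1 : ℕ} (hz0 : z0 ≤ q + 1) (hz1 : z1 ≤ q + 1)
    (hz0' : ∀ x < z0, (x, 0) ∉ Z) (hz1' : ∀ x < z1, (x, 1) ∉ Z) :
    ∑ a ∈ Z, dd A e1 e2 e3 e4 c1 c2 c3 b a ≤
      e1 * (c1 - min (row 0 A z0 : ℝ) c1) + e2 * (c2 - min (row 0 A z0 : ℝ) c2) +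
        e3 * (c3 - min (row 0 A z0 : ℝ) c3) + e4 * (b - min (row 1 A z1 : ℝ) b) := by
  have hsum : ∑ a ∈ Z, dd A e1 e2 e3 e4 c1 c2 c3 b a =
      e1 * ∑ p ∈ Z.filter (fun p => p.2 = 0), cutw A c1 0 p.1 +
      e2 * ∑ p ∈ Z.filter (fun p => p.2 = 0), cutw A c2 0 p.1 +
      e3 * ∑ p ∈ Z.filter (fun p => p.2 = 0), cutw A c3 0 p.1 +
      e4 * ∑ p ∈ Z.filter (fun p => p.2 = 1), cutw A b 1 p.1 := by
    rw [← Finset.sum_filter_add_sum_filter_not Z (fun p => p.2 = 0), Finset.mul_sum,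
      Finset.mul_sum, Finset.mul_sum, Finset.mul_sum, ← Finset.sum_add_distrib,
      ← Finset.sum_add_distrib]
    congr 1
    · refine sum_congr rfl fun p hp => ?_
      rw [dd, if_pos (mem_filter.1 hp).2]
    · have : Z.filter (fun p => ¬ p.2 = 0) = Z.filter (fun p => p.2 = 1) := by
        refine filter_congr fun p hp => ?_
        have h3 := hZ hp
        rw [src, mem_filter, PlunTwo.box, mem_product, mem_range, mem_range] at h3
        omega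
      rw [this]
      refine sum_congr rfl fun p hp => ?_
      rw [dd, if_neg (by rw [(mem_filter.1 hp).2]; exact one_ne_zero)]
  have s1 := sum_row_le hZ hc1 (r := 0) hz0 hz0'
  have s2 := sum_row_le hZ hc2 (r := 0) hz0 hz0'
  have s3 := sum_row_le hZ hc3 (r := 0) hz0 hz0'
  have s4 := sum_row_le hZ hb (r := 1) hz1 hz1'
  rw [min_eq_right hr1] at s1
  rw [min_eq_right hr2] at s2
  rw [min_eq_right hr3] at s3
  rw [min_eq_right hrb] at s4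
  rw [hsum]
  exact add_le_add (add_le_add (add_le_add (mul_le_mul_of_nonneg_left s1 h1)
    (mul_le_mul_of_nonneg_left s2 h2)) (mul_le_mul_of_nonneg_left s3 h3))
    (mul_le_mul_of_nonneg_left s4 h4)

end Pool.Agent.H5St
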