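import Mathlib

/-!
# The real inequalities behind the three-valued density

`s` is the surplus of the row `0` (its total mass is `1 + s`, that of the row `1` is `1 - s`), `c`
is the mass of the row `0` before the position `x`, `f` is the largest value of `(1 + s) x - c`.
The flow which leaves the row `0` has the density `Q + (2 - θ) s` (divided by `1 + s`) on the first
mass `m1 = f / s`, the density `s + θ` on the last mass `m2 = 2 f / (1 - s)` and the density
`Q = θ + (1 + s) / 2` between.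
-/

set_option autoImplicit false

namespace Pool.Agent.H5St

/-- `Q` times the flow which leaves the points of the row `0` from the mass `c` on. -/
noncomputable def tl (θ s m1 m2 c : ℝ) : ℝ :=
  (2 - θ) * s * (m1 - min c m1) + (1 - s) / 2 * ((1 + s - m2) - min c (1 + s - m2)) +
    (s + θ) * (1 + s - c)

theorem tl_le {θ s m1 m2 c f R : ℝ} (h1 : s * m1 = f) (h2 : (1 - s) * m2 = 2 * f)
    (h12 : m1 ≤ 1 + s - m2)
    (A1 : (θ + (1 + s) / 2) * (1 + s - c) + (1 - θ) * f - (2 - θ) * s * c ≤ R)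
    (A2 : (θ + (1 + s) / 2) * (1 + s - c) - f ≤ R)
    (A3 : (s + θ) * (1 + s - c) ≤ R) : tl θ s m1 m2 c ≤ R := by
  unfold tl
  rcases le_total c m1 with h | h
  · rw [min_eq_left h, min_eq_left (h.trans h12)]
    refine le_trans (le_of_eq ?_) A1
    linear_combination (2 - θ) * h1 - 1 / 2 * h2
  · rw [min_eq_right h]
    rcases le_total c (1 + s - m2) with h' | h'
    · rw [min_eq_left h']
      refine le_trans (le_of_eq ?_) A2
      linear_combination (-1 / 2) * h2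
    · rw [min_eq_right h']
      refine le_trans (le_of_eq ?_) A3
      ring

section

variable {θ s f x c m1 m2 : ℝ}

/-- The case of many reached points after the first point of the row `1`. -/
theorem case_one (hθ : 1 / 2 ≤ θ) (hθ1 : θ ≤ 1) (hs : 0 ≤ s) (hs1 : s ≤ 1)
    (h1 : s * m1 = f) (h2 : (1 - s) * m2 = 2 * f) (h12 : m1 ≤ 1 + s - m2)
    (hf : 0 ≤ f) (hfs : f ≤ s) (hx0 : 0 ≤ x) (hx1 : x ≤ 1) (hc : x ≤ c)
    (hc2 : 2 * x - (1 - s) ≤ c) (hv : (1 + s) * x - c ≤ f) :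
    tl θ s m1 m2 c ≤ (θ + s) * (1 - x) + (1 + s) / 2 * (1 + s - c) := by
  refine tl_le h1 h2 h12 ?_ ?_ ?_
  · have e1 : (1 - θ) * f ≤ (1 - θ) * s := mul_le_mul_of_nonneg_left hfs (by linarith)
    have e2 : (s + θ) * x ≤ (s + θ) * c := mul_le_mul_of_nonneg_left hc (by linarith)
    have e3 : 0 ≤ (1 - θ) * s * c := mul_nonneg (mul_nonneg (by linarith) hs) (by linarith)
    nlinarith
  · have e1 : θ * ((1 + s) * x - c) ≤ θ * f := mul_le_mul_of_nonneg_left hv (by linarith)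
    have e2 : θ * f ≤ f := by nlinarith
    have e3 : 0 ≤ (1 - θ) * s * (1 - x) := mul_nonneg (mul_nonneg (by linarith) hs) (by linarith)
    nlinarith
  · have e1 : (θ - 1 / 2 + s / 2) * (1 + s - c) ≤ (θ - 1 / 2 + s / 2) * (2 * (1 - x)) :=
      mul_le_mul_of_nonneg_left (by linarith) (by linarith)
    have e2 : 0 ≤ (1 - θ) * (1 - x) := mul_nonneg (by linarith) (by linarith)
    nlinarith

/-- The case of a late first point of the row `0`. -/
theorem case_late (hθ : 1 / 2 ≤ θ) (hθ1 : θ ≤ 1) (hs : 0 ≤ s) (hs1 : s ≤ 1)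
    (h1 : s * m1 = f) (h2 : (1 - s) * m2 = 2 * f) (h12 : m1 ≤ 1 + s - m2)
    (hfs : f ≤ s * x) (hx0 : 0 ≤ x) (hc : x ≤ c)
    (hc2 : 2 * x - (1 - s) ≤ c) (hv : (1 + s) * x - c ≤ f) :
    tl θ s m1 m2 c ≤ (1 + s) * (1 - x) + (θ - (1 - s) / 2) * (1 + s - c) := by
  refine tl_le h1 h2 h12 ?_ ?_ ?_
  · have e1 : (1 - θ) * f ≤ (1 - θ) * (s * x) := mul_le_mul_of_nonneg_left hfs (by linarith)
    have e2 : (1 - θ) * s * x ≤ (1 - θ) * s * c :=
      mul_le_mul_of_nonneg_left hc (mul_nonneg (by linarith) hs)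
    have e3 : (1 + s) * x ≤ (1 + s) * c := mul_le_mul_of_nonneg_left hc (by linarith)
    nlinarith
  · nlinarith
  · nlinarith [mul_le_mul_of_nonneg_left hc2 (show (0 : ℝ) ≤ (1 + s) / 2 by linarith)]

/-- The case of an early first point of the row `0` and a late first point of the row `1`; the mass
`β` of the row `1` is bounded by the values at the point `x'` with `(1 + s) x' - c' = f`. -/
theorem case_mid (hθ : 1 / 2 ≤ θ) (hθ1 : θ ≤ 1) (hs : 0 ≤ s) (hs1 : s ≤ 1)
    (h1 : s * m1 = f) (h2 : (1 - s) * m2 = 2 * f) (h12 : m1 ≤ 1 + s - m2)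
    {x' β : ℝ} (hfs : f ≤ s * x') (hc : x ≤ c)
    (hc2 : 2 * x - (1 - s) ≤ c) (hv : (1 + s) * x - c ≤ f)
    (hβ : β ≤ 2 * (1 - x) - (1 + s - c)) (hβ' : β ≤ 2 * (1 - x') - (f + (1 + s) * (1 - x'))) :
    tl θ s m1 m2 c ≤ 2 * (θ + s) * (1 - x) - (θ - (1 - s) / 2) * β := by
  have hg : 0 ≤ θ - (1 - s) / 2 := by linarith
  refine tl_le h1 h2 h12 ?_ ?_ ?_
  · -- `w` is the missing mass
    obtain ⟨w, hw⟩ : ∃ w, w = 2 * (1 - x) - (1 + s - c) - β := ⟨_, rfl⟩
    have hw0 : 0 ≤ w := by linarith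
    have hgs : (1 - θ) * s ≤ θ - (1 - s) / 2 := by nlinarith
    have e1 : (1 - θ) * s * w ≤ (θ - (1 - s) / 2) * w := mul_le_mul_of_nonneg_right hgs hw0
    have e2 : (1 - s) * x' + f - 2 * x + c ≤ w := by
      rw [hw]
      linarith
    have e3 : s * ((1 - s) * x' + f - 2 * x + c) ≤ s * w := mul_le_mul_of_nonneg_left e2 hs
    have e4 : (1 - s) * f ≤ (1 - s) * (s * x') := mul_le_mul_of_nonneg_left hfs (by linarith)
    have e5 : f - 2 * s * x + s * c ≤ s * w := by nlinarith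
    have e6 : (1 - θ) * (f - 2 * s * x + s * c) ≤ (1 - θ) * (s * w) :=
      mul_le_mul_of_nonneg_left e5 (by linarith)
    have e7 : (1 + (3 - 2 * θ) * s) * x ≤ (1 + (3 - 2 * θ) * s) * c := by
      refine mul_le_mul_of_nonneg_left hc ?_
      nlinarith
    have hβw : β = 2 * (1 - x) - (1 + s - c) - w := by rw [hw]; ring
    rw [hβw]
    nlinarith
  · have e1 := mul_le_mul_of_nonneg_left hβ hg
    nlinarith
  · have e1 := mul_le_mul_of_nonneg_left hβ hg
    nlinarith [mul_le_mul_of_nonneg_left hc2 (show (0 : ℝ) ≤ (1 + s) / 2 by linarith)]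

/-- The case of an early first point of the row `0` and a first point of the row `1` before `x'`;
`a'` is the mass of the row `0` after `x'`. -/
theorem case_early (hθ : 1 / 2 ≤ θ) (hθ1 : θ ≤ 1) (hs : 0 ≤ s) (hs1 : s ≤ 1)
    (h1 : s * m1 = f) (h2 : (1 - s) * m2 = 2 * f) (h12 : m1 ≤ 1 + s - m2)
    {a' β : ℝ} (ha' : f ≤ a') (hf : 0 ≤ f) (hx0 : 0 ≤ x) (hc : x ≤ c)
    (hc2 : 2 * x - (1 - s) ≤ c) (hv : (1 + s) * x - c ≤ f)
    (hβ : β ≤ 2 * (1 - x) - (1 + s - c)) :
    tl θ s m1 m2 c ≤ 2 * (θ + s) * (1 - x) - (θ - (1 - s) / 2) * β + (1 - θ) * a' := by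
  have hg : 0 ≤ θ - (1 - s) / 2 := by linarith
  have e0 := mul_le_mul_of_nonneg_left hβ hg
  have ea : (1 - θ) * f ≤ (1 - θ) * a' := mul_le_mul_of_nonneg_left ha' (by linarith)
  have ef : 0 ≤ (1 - θ) * f := mul_nonneg (by linarith) hf
  refine tl_le h1 h2 h12 ?_ ?_ ?_
  · have e1 : (1 + s) * x ≤ (1 + s) * c := mul_le_mul_of_nonneg_left hc (by linarith)
    have e2 : 0 ≤ (1 - θ) * s * c := mul_nonneg (mul_nonneg (by linarith) hs) (by linarith)
    nlinarith
  · nlinarith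
  · nlinarith [mul_le_mul_of_nonneg_left hc2 (show (0 : ℝ) ≤ (1 + s) / 2 by linarith)]

end

end Pool.Agent.H5St
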