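import Pool.Agent.H5St.Feas

/-!
# The three-valued density is feasible
-/

set_option autoImplicit false

namespace Pool.Agent.H5St

/-- The normalised masses `C0`, `C1` of the two rows of `A` before every position. -/
structure Prof (L : ℕ) (s f : ℝ) (C0 C1 : ℕ → ℝ) (l' : ℕ) : Prop where
  hL : 0 < L
  hs : 0 ≤ s
  hs1 : s ≤ 1
  mono0 : ∀ {l m : ℕ}, l ≤ m → C0 l ≤ C0 m
  mono1 : ∀ {l m : ℕ}, l ≤ m → C1 l ≤ C1 m
  low0 : ∀ l ≤ L, (l : ℝ) / L ≤ C0 l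
  low : ∀ l ≤ L, 2 * ((l : ℝ) / L) ≤ C0 l + C1 l
  up0 : ∀ l, C0 l ≤ 1 + s
  up1 : ∀ l, C1 l ≤ 1 - s
  hf0 : 0 ≤ f
  hv : ∀ l ≤ L, (1 + s) * ((l : ℝ) / L) - C0 l ≤ f
  hl' : l' ≤ L
  hf : (1 + s) * ((l' : ℝ) / L) - C0 l' = f

variable {L l' : ℕ} {s f : ℝ} {C0 C1 : ℕ → ℝ}

theorem pos_div {L l : ℕ} (hL : 0 < L) (h : l ≤ L) : 0 ≤ (l : ℝ) / L ∧ (l : ℝ) / L ≤ 1 := by
  have h1 : (0 : ℝ) < L := by exact_mod_cast hL
  have h2 : (l : ℝ) ≤ L := by exact_mod_cast h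
  exact ⟨by positivity, by rw [div_le_one h1]; exact h2⟩

theorem mono_div {L l m : ℕ} (h : l ≤ m) : (l : ℝ) / L ≤ (m : ℝ) / L := by
  have : (l : ℝ) ≤ m := by exact_mod_cast h
  gcongr

theorem Prof.f_le (H : Prof L s f C0 C1 l') : f ≤ s * ((l' : ℝ) / L) := by
  have h1 := H.low0 l' H.hl'
  have h2 := H.hf
  nlinarith

theorem Prof.f_le' (H : Prof L s f C0 C1 l') : f ≤ (1 - s) * (1 - (l' : ℝ) / L) := by
  have h1 := H.low l' H.hl'
  have h2 := H.hf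
  have h3 := H.up1 l'
  nlinarith

theorem Prof.f_le_mul (H : Prof L s f C0 C1 l') : f ≤ s * (1 - s) := by
  have h1 := mul_le_mul_of_nonneg_left H.f_le (sub_nonneg.2 H.hs1)
  have h2 := mul_le_mul_of_nonneg_left H.f_le' H.hs
  nlinarith

theorem Prof.m1_eq (H : Prof L s f C0 C1 l') : s * (f / s) = f := by
  rcases H.hs.eq_or_lt with h | h
  · have h1 := H.f_le
    have h2 := H.hf0
    rw [← h] at h1 ⊢
    rw [zero_mul] at h1 ⊢
    linarith
  · field_simp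

theorem Prof.m2_eq (H : Prof L s f C0 C1 l') : (1 - s) * (2 * f / (1 - s)) = 2 * f := by
  rcases (sub_nonneg.2 H.hs1).eq_or_lt with h | h
  · have h1 := H.f_le'
    have h2 := H.hf0
    rw [← h] at h1 ⊢
    rw [zero_mul] at h1 ⊢
    linarith
  · field_simp

theorem Prof.m_le (H : Prof L s f C0 C1 l') : f / s ≤ 1 + s - 2 * f / (1 - s) := by
  have h := H.f_le_mul
  have h1 : f / s ≤ 1 - s := by
    rcases H.hs.eq_or_lt with h0 | h0
    · rw [← h0, div_zero]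
      norm_num
    · rw [div_le_iff₀ h0]
      linarith
  have h2 : 2 * f / (1 - s) ≤ 2 * s := by
    rcases (sub_nonneg.2 H.hs1).eq_or_lt with h0 | h0
    · rw [← h0, div_zero]
      linarith [H.hs]
    · rw [div_le_iff₀ h0]
      linarith
  linarith

theorem Prof.m1_nonneg (H : Prof L s f C0 C1 l') : 0 ≤ f / s := div_nonneg H.hf0 H.hs

theorem Prof.m2_nonneg (H : Prof L s f C0 C1 l') : 0 ≤ 2 * f / (1 - s) :=
  div_nonneg (by linarith [H.hf0]) (by linarith [H.hs1])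

/-- **Feasibility.** -/
theorem Prof.feas (H : Prof L s f C0 C1 l') {θ P : ℝ} (hθ : 1 / 2 ≤ θ) (hθ1 : θ ≤ 1) {z0 z1 : ℕ}
    (hz0 : z0 ≤ L) (hz1 : z1 ≤ L)
    (hP1 : z1 ≤ z0 → (θ + s) * (1 - (z0 : ℝ) / L) + (1 + s) * (1 - (z1 : ℝ) / L) ≤ P)
    (hP2 : z0 ≤ z1 → z1 - z0 ≤ L - z1 → (1 + 2 * s + θ) * (1 - (z0 : ℝ) / L) ≤ P)
    (hP3 : z0 ≤ z1 → L - z1 ≤ z1 - z0 →
      2 * (θ + s) * (1 - (z0 : ℝ) / L) + 2 * (1 - θ) * (1 - (z1 : ℝ) / L) ≤ P) :
    tl θ s (f / s) (2 * f / (1 - s)) (C0 z0) + (1 + s) / 2 * (1 - s - C1 z1) ≤ P := by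
  obtain ⟨x, hx⟩ : ∃ x, x = (z0 : ℝ) / L := ⟨_, rfl⟩
  obtain ⟨y, hy⟩ : ∃ y, y = (z1 : ℝ) / L := ⟨_, rfl⟩
  obtain ⟨x', hx'⟩ : ∃ x', x' = (l' : ℝ) / L := ⟨_, rfl⟩
  have px := pos_div H.hL hz0
  have py := pos_div H.hL hz1
  have px' := pos_div H.hL H.hl'
  have l0 := H.low0 z0 hz0
  have l1 := H.low z0 hz0
  have l2 := H.low z1 hz1
  have l3 := H.low l' H.hl'
  have v0 := H.hv z0 hz0
  have fe := H.hf
  have f1 := H.f_le
  have f2 := H.f_le_mul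
  have u0 := H.up0 z0
  have u1 := H.up0 z1
  have w0 := H.up1 z0
  have hs := H.hs
  have hs1 := H.hs1
  rw [← hx] at px l0 l1 v0
  rw [← hy] at py l2
  rw [← hx'] at px' l3 fe f1
  rw [← hx, ← hy] at hP1 hP3
  rw [← hx] at hP2
  obtain ⟨c, hc⟩ : ∃ c, c = C0 z0 := ⟨_, rfl⟩
  obtain ⟨β, hβ⟩ : ∃ β, β = 1 - s - C1 z1 := ⟨_, rfl⟩
  rw [← hβ]
  rw [← hc] at l0 l1 v0 u0 ⊢
  have hfs : f ≤ s := f1.trans (by nlinarith [px'.2])
  have hc2 : 2 * x - (1 - s) ≤ c := by linarith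
  have hβy : β ≤ 2 * (1 - y) - (1 + s - C0 z1) := by
    rw [hβ]
    linarith
  have hβY : β ≤ 2 * (1 - y) := by linarith
  have hg : 0 ≤ θ - (1 - s) / 2 := by linarith
  have hθ' : 0 ≤ 1 - θ := by linarith
  have c1 := case_one hθ hθ1 hs hs1 H.m1_eq H.m2_eq H.m_le H.hf0 hfs px.1 px.2 l0 hc2 v0
  rcases le_total z1 z0 with h | h
  · refine le_trans ?_ (hP1 h)
    have h1 : C0 z1 ≤ c := by rw [hc]; exact H.mono0 h
    have h2 : (1 + s) / 2 * β ≤ (1 + s) / 2 * (2 * (1 - y) - (1 + s - c)) :=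
      mul_le_mul_of_nonneg_left (by linarith) (by linarith)
    nlinarith
  · have h1 : C1 z0 ≤ C1 z1 := H.mono1 h
    have hβx : β ≤ 2 * (1 - x) - (1 + s - c) := by
      rw [hβ]
      linarith
    rcases le_total (z1 - z0) (L - z1) with h' | h'
    · refine le_trans ?_ (hP2 h h')
      have h2 : (1 + s) / 2 * β ≤ (1 + s) / 2 * (2 * (1 - x) - (1 + s - c)) :=
        mul_le_mul_of_nonneg_left hβx (by linarith)
      nlinarith
    · refine le_trans ?_ (hP3 h h')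
      have h3 : (1 - θ) * β ≤ (1 - θ) * (2 * (1 - y)) := mul_le_mul_of_nonneg_left hβY hθ'
      rcases le_total l' z0 with h4 | h4
      · have h5 : x' ≤ x := by rw [hx, hx']; exact mono_div h4
        have h6 := case_late hθ hθ1 hs hs1 H.m1_eq H.m2_eq H.m_le
          (f1.trans (mul_le_mul_of_nonneg_left h5 hs)) px.1 l0 hc2 v0
        have h7 : (θ - (1 - s) / 2) * β ≤ (θ - (1 - s) / 2) * (2 * (1 - x) - (1 + s - c)) :=
          mul_le_mul_of_nonneg_left hβx hg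
        nlinarith
      · rcases le_total l' z1 with h5 | h5
        · have h6 : C1 l' ≤ C1 z1 := H.mono1 h5
          have h7 : β ≤ 2 * (1 - x') - (f + (1 + s) * (1 - x')) := by
            rw [hβ]
            linarith
          have h8 := case_mid hθ hθ1 hs hs1 H.m1_eq H.m2_eq H.m_le f1 l0 hc2 v0 hβx h7
          nlinarith
        · have h6 : C0 z1 ≤ C0 l' := H.mono0 h5
          have h7 : f ≤ 1 + s - C0 l' := by
            have : 0 ≤ (1 + s) * (1 - x') := mul_nonneg (by linarith) (by linarith [px'.2])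
            linarith
          have h8 := case_early hθ hθ1 hs hs1 H.m1_eq H.m2_eq H.m_le h7 H.hf0 px.1 l0 hc2 v0 hβx
          have h9 : (1 - θ) * (β + (1 + s - C0 l')) ≤ (1 - θ) * (2 * (1 - y)) :=
            mul_le_mul_of_nonneg_left (by linarith) hθ'
          nlinarith

end Pool.Agent.H5St
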