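import Pool.Agent.H5St.Dens
import Pool.Agent.H5St.Profile

/-!
# The weighted Hall condition for the three-valued density
-/

set_option autoImplicit false

open Finset Classical

namespace Pool.Agent.H5St

open Pool.Agent.PlunTwo Pool.Agent.PlunRow

/-- The normalised mass of the first points of the row `r`. -/
noncomputable def nm (A : Set (ℕ × ℕ)) (t c : ℝ) (r l : ℕ) : ℝ := min (row r A l : ℝ) c / t

theorem nm_mono {A : Set (ℕ × ℕ)} {t c : ℝ} (ht : 0 < t) {r l m : ℕ} (h : l ≤ m) :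
    nm A t c r l ≤ nm A t c r m := by
  unfold nm
  have : (row r A l : ℝ) ≤ row r A m := by exact_mod_cast row_mono r A h
  gcongr

theorem min_scale {r t M m : ℝ} (ht : 0 < t) (h : m ≤ M) :
    min r (t * m) = t * min (min r (t * M) / t) m := by
  rw [mul_min_of_nonneg _ _ ht.le, mul_div_cancel₀ _ ht.ne', min_assoc,
    min_eq_right (mul_le_mul_of_nonneg_left h ht.le)]

/-- The profile of `A`; the total mass of the row `1` is `b = α L (1 - s)`. -/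
theorem exists_prof {q : ℕ} (A : Set (ℕ × ℕ)) {α s : ℝ} (hα : 0 < α) (hs : 0 ≤ s) (hs1 : s ≤ 1)
    (hA0 : ∀ l ≤ q + 1, α * (l : ℝ) ≤ row 0 A l)
    (hA : ∀ l ≤ q + 1, 2 * α * (l : ℝ) ≤ (row 0 A l : ℝ) + row 1 A l)
    (hb : ∀ l ≤ q + 1, 2 * α * (l : ℝ) - row 0 A l ≤ α * (q + 1 : ℕ) * (1 - s))
    (hb' : ∃ l ≤ q + 1, α * (q + 1 : ℕ) * (1 - s) = 2 * α * (l : ℝ) - row 0 A l) :
    ∃ (f : ℝ) (l' : ℕ), Prof (q + 1) s f (nm A (α * (q + 1 : ℕ)) (α * (q + 1 : ℕ) * (1 + s)) 0)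
      (nm A (α * (q + 1 : ℕ)) (α * (q + 1 : ℕ) * (1 - s)) 1) l' := by
  have hL : (0 : ℝ) < ((q + 1 : ℕ) : ℝ) := by positivity
  obtain ⟨t, ht⟩ : ∃ t, t = α * ((q + 1 : ℕ) : ℝ) := ⟨_, rfl⟩
  have ht0 : 0 < t := by rw [ht]; positivity
  rw [← ht] at hb hb' ⊢
  obtain ⟨l0, hl0, hmax⟩ := exists_max_image (range (q + 1 + 1))
    (fun l => (1 + s) * ((l : ℝ) / ((q + 1 : ℕ) : ℝ)) - nm A t (t * (1 + s)) 0 l)
    ⟨0, mem_range.2 (by omega)⟩
  rw [mem_range] at hl0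
  have hmax' : ∀ l ≤ q + 1, (1 + s) * ((l : ℝ) / ((q + 1 : ℕ) : ℝ)) -
      nm A t (t * (1 + s)) 0 l ≤ (1 + s) * ((l0 : ℝ) / ((q + 1 : ℕ) : ℝ)) -
      nm A t (t * (1 + s)) 0 l0 := fun l hl => hmax l (mem_range.2 (by omega))
  have hdiv : ∀ l : ℕ, (l : ℝ) / ((q + 1 : ℕ) : ℝ) = α * l / t := by
    intro l
    rw [ht]
    field_simp
  have hl : ∀ l ≤ q + 1, α * (l : ℝ) ≤ t := by
    intro l hl
    rw [ht]
    have : (l : ℝ) ≤ ((q + 1 : ℕ) : ℝ) := by exact_mod_cast hl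
    exact mul_le_mul_of_nonneg_left this hα.le
  have e2 : 2 * α * ((q + 1 : ℕ) : ℝ) - t * (1 - s) = t * (1 + s) := by
    rw [ht]
    ring
  refine ⟨(1 + s) * ((l0 : ℝ) / ((q + 1 : ℕ) : ℝ)) - nm A t (t * (1 + s)) 0 l0, l0, ?_⟩
  refine
    { hL := by omega
      hs := hs
      hs1 := hs1
      mono0 := nm_mono ht0
      mono1 := nm_mono ht0
      low0 := ?_
      low := ?_
      up0 := ?_
      up1 := ?_
      hf0 := ?_
      hv := hmax'
      hl' := by omega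
      hf := rfl }
  · intro l hll
    rw [hdiv, nm, div_le_div_iff_of_pos_right ht0, le_min_iff]
    exact ⟨hA0 l hll, (hl l hll).trans (by nlinarith)⟩
  · intro l hll
    have h := cut_rows A hα hA hb hb' hll
    rw [e2] at h
    rw [hdiv, nm, nm, ← add_div, ← mul_div_assoc, div_le_div_iff_of_pos_right ht0]
    linarith
  · intro l
    rw [nm, div_le_iff₀ ht0]
    exact (min_le_right _ _).trans (by linarith)
  · intro l
    rw [nm, div_le_iff₀ ht0]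
    exact (min_le_right _ _).trans (by linarith)
  · have := hmax' 0 (by omega)
    refine le_trans (le_of_eq ?_) this
    have : row 0 A 0 = 0 := by simp [row]
    rw [nm, this, Nat.cast_zero, zero_div, mul_zero, min_eq_left (by positivity), zero_div,
      sub_zero]

/-- **The weighted Hall condition.** -/
theorem two_hall {q k : ℕ} (A B : Set (ℕ × ℕ)) {α δ θ s f : ℝ} {l' : ℕ} (hα : 0 < α) (hδ : 0 < δ)
    (hθ : 1 / 2 ≤ θ) (hθ1 : θ ≤ 1)
    (hr0 : α * (q + 1 : ℕ) * (1 + s) ≤ row 0 A (q + 1))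
    (hr1 : α * (q + 1 : ℕ) * (1 - s) ≤ row 1 A (q + 1))
    (hK : Stair q (kfold B k) δ)
    (H : Prof (q + 1) s f (nm A (α * (q + 1 : ℕ)) (α * (q + 1 : ℕ) * (1 + s)) 0)
      (nm A (α * (q + 1 : ℕ)) (α * (q + 1 : ℕ) * (1 - s)) 1) l') :
    ∀ Z ⊆ src q A, ∑ a ∈ Z, dd A (δ / (α * (1 + s)) * ((2 - θ) * s))
      (δ / (α * (1 + s)) * ((1 - s) / 2)) (δ / (α * (1 + s)) * (s + θ)) (δ / (2 * α))
      (α * (q + 1 : ℕ) * (f / s)) (α * (q + 1 : ℕ) * (1 + s - 2 * f / (1 - s)))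
      (α * (q + 1 : ℕ) * (1 + s)) (α * (q + 1 : ℕ) * (1 - s)) a ≤
      (θ + s) / (1 + s) * (im q k B 0 Z).card + 1 * (im q k B 1 Z).card := by
  intro Z hZ
  have hs := H.hs
  have hs1 := H.hs1
  have hL : (0 : ℝ) < ((q + 1 : ℕ) : ℝ) := by positivity
  have hs2 : 0 < 1 + s := by linarith
  obtain ⟨z0, hz0, hz0', hz0''⟩ := exists_first (fun x => (x, 0) ∈ Z) (q + 1)
  obtain ⟨z1, hz1, hz1', hz1''⟩ := exists_first (fun x => (x, 1) ∈ Z) (q + 1)
  obtain ⟨t, ht⟩ : ∃ t, t = α * ((q + 1 : ℕ) : ℝ) := ⟨_, rfl⟩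
  have ht0 : 0 < t := by rw [ht]; positivity
  rw [← ht] at hr0 hr1 H ⊢
  have hm12 := H.m_le
  have hm1 := H.m1_nonneg
  have hm2 := H.m2_nonneg
  have hm3 : 1 + s - 2 * f / (1 - s) ≤ 1 + s := by linarith
  have hm4 : f / s ≤ 1 + s := hm12.trans hm3
  have hm5 : 0 ≤ 1 + s - 2 * f / (1 - s) := hm1.trans hm12
  have hu : 0 ≤ δ / (α * (1 + s)) := by positivity
  have hsum := sum_dd hZ (A := A) (e1 := δ / (α * (1 + s)) * ((2 - θ) * s))
    (e2 := δ / (α * (1 + s)) * ((1 - s) / 2)) (e3 := δ / (α * (1 + s)) * (s + θ))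
    (e4 := δ / (2 * α)) (c1 := t * (f / s)) (c2 := t * (1 + s - 2 * f / (1 - s)))
    (c3 := t * (1 + s)) (b := t * (1 - s))
    (mul_nonneg hu (mul_nonneg (by linarith) hs)) (mul_nonneg hu (by linarith))
    (mul_nonneg hu (by linarith)) (by positivity) (by positivity)
    (mul_nonneg ht0.le hm5) (by positivity) (mul_nonneg ht0.le (by linarith))
    ((mul_le_mul_of_nonneg_left hm4 ht0.le).trans hr0)
    ((mul_le_mul_of_nonneg_left hm3 ht0.le).trans hr0) hr0 hr1 hz0 hz1 hz0' hz1'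
  refine hsum.trans ?_
  have hn0 : min (row 0 A z0 : ℝ) (t * (1 + s)) / t = nm A t (t * (1 + s)) 0 z0 := rfl
  have hn1 : min (row 0 A z0 : ℝ) (t * (1 + s)) = t * nm A t (t * (1 + s)) 0 z0 := by
    rw [nm, mul_div_cancel₀ _ ht0.ne']
  have hn2 : min (row 1 A z1 : ℝ) (t * (1 - s)) = t * nm A t (t * (1 - s)) 1 z1 := by
    rw [nm, mul_div_cancel₀ _ ht0.ne']
  rw [min_scale ht0 hm4, min_scale ht0 hm3, hn0, hn1, hn2]
  obtain ⟨g1, g2, g3⟩ := reach (θ := θ) (s := s) hδ.le (by linarith) hθ1 hs hK hz0 hz1 hz0'' hz1''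
  set P : ℝ := (θ + s) * (im q k B 0 Z).card + (1 + s) * (im q k B 1 Z).card with hP
  have hδL : 0 < δ * ((q + 1 : ℕ) : ℝ) := by positivity
  have hsub : ∀ z : ℕ, 1 - (z : ℝ) / ((q + 1 : ℕ) : ℝ) =
      (((q + 1 : ℕ) : ℝ) - z) / ((q + 1 : ℕ) : ℝ) := by
    intro z
    field_simp
  have key := H.feas (P := P / (δ * ((q + 1 : ℕ) : ℝ))) hθ hθ1 hz0 hz1 (fun _ => ?_)
    (fun h h' => ?_) fun h h' => ?_
  · rw [le_div_iff₀ hδL] at key
    have e : δ / (α * (1 + s)) * ((2 - θ) * s) *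
          (t * (f / s) - t * min (nm A t (t * (1 + s)) 0 z0) (f / s)) +
        δ / (α * (1 + s)) * ((1 - s) / 2) * (t * (1 + s - 2 * f / (1 - s)) -
          t * min (nm A t (t * (1 + s)) 0 z0) (1 + s - 2 * f / (1 - s))) +
        δ / (α * (1 + s)) * (s + θ) * (t * (1 + s) - t * nm A t (t * (1 + s)) 0 z0) +
        δ / (2 * α) * (t * (1 - s) - t * nm A t (t * (1 - s)) 1 z1) =
        (tl θ s (f / s) (2 * f / (1 - s)) (nm A t (t * (1 + s)) 0 z0) +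
          (1 + s) / 2 * (1 - s - nm A t (t * (1 - s)) 1 z1)) * (δ * ((q + 1 : ℕ) : ℝ)) /
            (1 + s) := by
      unfold tl
      rw [ht]
      generalize min (nm A (α * ((q + 1 : ℕ) : ℝ)) (α * ((q + 1 : ℕ) : ℝ) * (1 + s)) 0 z0)
        (f / s) = w1
      generalize min (nm A (α * ((q + 1 : ℕ) : ℝ)) (α * ((q + 1 : ℕ) : ℝ) * (1 + s)) 0 z0)
        (1 + s - 2 * f / (1 - s)) = w2
      generalize nm A (α * ((q + 1 : ℕ) : ℝ)) (α * ((q + 1 : ℕ) : ℝ) * (1 + s)) 0 z0 = w3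
      generalize nm A (α * ((q + 1 : ℕ) : ℝ)) (α * ((q + 1 : ℕ) : ℝ) * (1 - s)) 1 z1 = w4
      generalize f / s = w5
      generalize 2 * f / (1 - s) = w6
      field_simp
    rw [e, div_le_iff₀ hs2]
    refine key.trans (le_of_eq ?_)
    rw [hP]
    field_simp
  · rw [le_div_iff₀ hδL, hsub, hsub]
    refine le_trans (le_of_eq ?_) g1
    field_simp
  · rw [le_div_iff₀ hδL, hsub]
    refine le_trans (le_of_eq ?_) (g2 h h')
    field_simp
  · rw [le_div_iff₀ hδL, hsub, hsub]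
    refine le_trans (le_of_eq ?_) (g3 h h')
    field_simp

end Pool.Agent.H5St
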