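import Pool.Agent.H5St.TensorU

/-!
# The bound in the labelled tensor power with copies
-/

set_option autoImplicit false

open Finset Classical

namespace Pool.Agent.H5St

open Pool.Agent.PlunTwo Pool.Agent.PlunRow

/-- The points of the row `r` of the box which are reached from `Z` by `k B`. -/
noncomputable def im (q k : ℕ) (B : Set (ℕ × ℕ)) (r : ℕ) (Z : Finset (ℕ × ℕ)) : Finset ℕ :=
  (range (q + 1)).filter fun x => ∃ a ∈ Z, ∃ w ∈ kfold B k, a + w = (x, r)

theorem mem_srcU {q : ℕ} {A : Set (ℕ × ℕ)} {a : PC} : a ∈ srcU q A ↔ a.1 ∈ src q A ∧ a.2 = 0 := by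
  rw [srcU, mem_image]
  constructor
  · rintro ⟨x, hx, rfl⟩
    exact ⟨hx, rfl⟩
  · rintro ⟨h1, h2⟩
    exact ⟨a.1, h1, Prod.ext rfl h2.symm⟩

theorem whallU {q k c0 c1 : ℕ} (A B : Set (ℕ × ℕ)) {d : ℕ × ℕ → ℝ}
    (h : ∀ Z ⊆ src q A, ∑ a ∈ Z, d a ≤
      (c0 : ℝ) * (im q k B 0 Z).card + (c1 : ℝ) * (im q k B 1 Z).card) :
    WHall (srcU q A) (tgtU q c0 c1) (fun a y => ∃ w ∈ kfold B k, a.1 + w = y.1)
      fun a => d a.1 := by
  intro Z hZ
  have hinj : Set.InjOn Prod.fst (Z : Set PC) := by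
    intro a ha b hb hab
    exact Prod.ext hab ((mem_srcU.1 (hZ ha)).2.trans (mem_srcU.1 (hZ hb)).2.symm)
  have h1 := h (Z.image Prod.fst) (by
    intro a ha
    obtain ⟨b, hb, rfl⟩ := mem_image.1 ha
    exact (mem_srcU.1 (hZ hb)).1)
  rw [sum_image hinj] at h1
  refine h1.trans (le_of_eq ?_)
  have h2 := card_tgtU q c0 c1 fun x => ∃ a ∈ Z.image Prod.fst, ∃ w ∈ kfold B k, a + w = x
  have h3 : ((tgtU q c0 c1).filter fun y => ∃ a ∈ Z, ∃ w ∈ kfold B k, a.1 + w = y.1).card =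
      c0 * (im q k B 0 (Z.image Prod.fst)).card + c1 * (im q k B 1 (Z.image Prod.fst)).card := by
    refine Eq.trans ?_ (h2.trans ?_)
    · congr 1
      ext y
      simp only [mem_filter, mem_image, exists_exists_and_eq_and]
    · rw [im, im]
      congr!
  rw [← Nat.cast_mul, ← Nat.cast_mul, ← Nat.cast_add, ← h3]

theorem sum_srcU {q : ℕ} (A : Set (ℕ × ℕ)) (P : ℕ × ℕ → Prop) (g : ℕ × ℕ → ℝ) :
    ∑ x ∈ (srcU q A).filter (fun x : PC => P x.1), g x.1 = ∑ x ∈ (src q A).filter P, g x := by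
  have h : (srcU q A).filter (fun x : PC => P x.1) =
      ((src q A).filter P).image fun x => ((x, 0) : PC) := by
    ext a
    rw [mem_filter, mem_srcU, mem_image]
    constructor
    · rintro ⟨⟨h1, h2⟩, h3⟩
      exact ⟨a.1, mem_filter.2 ⟨h1, h3⟩, Prod.ext rfl h2.symm⟩
    · rintro ⟨x, hx, rfl⟩
      rw [mem_filter] at hx
      exact ⟨⟨hx.1, rfl⟩, hx.2⟩
  rw [h, sum_image]
  intro x _ y _ hxy
  exact (Prod.ext_iff.1 hxy).1

theorem card_srcU (q : ℕ) (A : Set (ℕ × ℕ)) : (srcU q A).card = (src q A).card := by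
  rw [srcU, card_image_of_injective]
  intro x y hxy
  exact (Prod.ext_iff.1 hxy).1

/-- The bound in the labelled `n`-th power. -/
theorem tensorU {q k j c0 c1 : ℕ} (hj : 0 < j) (hk : j ≤ k) (A B : Set (ℕ × ℕ)) {d : ℕ × ℕ → ℝ}
    (hd : ∀ a ∈ src q A, 0 ≤ d a)
    (hH : ∀ Z ⊆ src q A, ∑ a ∈ Z, d a ≤
      (c0 : ℝ) * (im q k B 0 Z).card + (c1 : ℝ) * (im q k B 1 Z).card) (n m : ℕ) :
    ((n.choose m : ℝ) * (∑ x ∈ (src q A).filter (fun x => ¬ x.2 = 1), d x ^ ((j : ℝ) / k)) ^ (n - m)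
      * (∑ x ∈ (src q A).filter (fun x => x.2 = 1), d x ^ ((j : ℝ) / k)) ^ m) ^ k ≤
      ((k : ℝ) * n + 1) ^ (src q A).card * (k.choose j : ℝ) *
        (((c0 : ℝ) * row 0 (msum A (kfold B j)) (q + 1) +
          (c1 : ℝ) * row 1 (msum A (kfold B j)) (q + 1)) ^ n) ^ j *
          ((n.choose m : ℝ) * (row 0 (msum A (kfold B j)) (q + 1) : ℝ) ^ (n - m) *
            (row 1 (msum A (kfold B j)) (q + 1) : ℝ) ^ m) ^ (k - j) := by
  have hk0 : (0 : ℝ) < k := by exact_mod_cast hj.trans_le hk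
  have hjR : (0 : ℝ) < j := by exact_mod_cast hj
  set θ : ℝ := (j : ℝ) / k with hθ
  have hθ0 : 0 < θ := div_pos hjR hk0
  have hHU := whallU A B hH
  have hdU : ∀ a ∈ srcU q A, 0 ≤ d a.1 := fun a ha => hd _ (mem_srcU.1 ha).1
  set Wm := (Fintype.piFinset fun _ : Fin n => srcU q A).filter fun a =>
    cnt (fun x : PC => x.1.2 = 1) a = m with hWm
  set S0 : Finset (Fin k → Fin n → PC) := Fintype.piFinset fun _ => Wm with hS0
  set D : (Fin k → Fin n → PC) → ℝ := fun a => ∏ l, ∏ s, d (a l s).1 with hD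
  have hmem : ∀ a ∈ S0, ∀ l s, a l s ∈ srcU q A := by
    intro a ha l s
    have h1 := Fintype.mem_piFinset.1 ha l
    exact Fintype.mem_piFinset.1 (mem_filter.1 h1).1 s
  have hDn : ∀ a ∈ S0, 0 ≤ D a := fun a ha =>
    prod_nonneg fun l _ => prod_nonneg fun s _ => hdU _ (hmem a ha l s)
  set R0 : ℝ := (row 0 (msum A (kfold B j)) (q + 1) : ℝ) with hR0
  set R1 : ℝ := (row 1 (msum A (kfold B j)) (q + 1) : ℝ) with hR1
  set Xb : ℝ := (k.choose j : ℝ) * (((c0 : ℝ) * R0 + (c1 : ℝ) * R1) ^ n) ^ j *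
    ((n.choose m : ℝ) * R0 ^ (n - m) * R1 ^ m) ^ (k - j) with hXb
  have hXb0 : 0 ≤ Xb := by positivity
  have hlev : ∀ t : ℝ, 0 < t → t ^ θ * ((S0.filter fun a => t ≤ D a).card : ℝ) ≤ Xb := by
    intro t ht
    have key := label_bound (k := k) (regU q c0 c1 n m A B) (S0 := S0.filter fun a => t ≤ D a)
      (fun a ha l => ?_) (W := Fintype.piFinset fun _ => tgtU q c0 c1)
      (fun z hz => Fintype.mem_piFinset.1 hz) hk hj ht.le ?_
    · rw [card_VbU, card_UbU] at key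
      rw [hXb]
      push_cast at key
      exact key
    · have h1 := Fintype.mem_piFinset.1 (mem_filter.1 ha).1 l
      rw [hWm, mem_filter, Fintype.mem_piFinset] at h1
      rw [UbU, mem_filter, Fintype.mem_piFinset]
      refine ⟨fun s => ?_, h1.2⟩
      have h2 := mem_srcU.1 (h1.1 s)
      rw [src, mem_filter] at h2
      rw [mem_product, mem_filter, mem_singleton]
      exact ⟨⟨h2.1.1, (a l s).1, h2.1.2, 0, rfl, add_zero _⟩, h2.2⟩
    · intro Z hZ
      have hZS : ∀ a ∈ Z, a ∈ S0 ∧ t ≤ D a := fun a ha => mem_filter.1 (hZ ha)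
      have hZ' : Z ⊆ Fintype.piFinset fun _ : Fin k => Fintype.piFinset fun _ : Fin n =>
          srcU q A := by
        intro a ha
        rw [Fintype.mem_piFinset]
        intro l
        rw [Fintype.mem_piFinset]
        exact hmem a (hZS a ha).1 l
      have h1 := whall_two k n hdU hHU Z hZ'
      have h2 : t * (Z.card : ℝ) ≤ ∑ a ∈ Z, D a := by
        have := card_nsmul_le_sum Z D t fun a ha => (hZS a ha).2
        rw [nsmul_eq_mul] at this
        linarith
      refine (h2.trans h1).trans ?_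
      refine Nat.cast_le.2 (card_le_card fun y hy => ?_)
      simp only [mem_filter] at hy ⊢
      obtain ⟨hy1, a, ha, hay⟩ := hy
      refine ⟨hy1, a, ha, fun l => ?_⟩
      exact conn_ofU l.2 (fun s => (mem_srcU.1 (hmem a (hZS a ha).1 l s)).2)
        (fun s => Fintype.mem_piFinset.1 (Fintype.mem_piFinset.1 hy1 l) s) (hay l)
  have hsum := exists_level S0 D hDn θ hθ0 Xb hlev
  have hval : ((S0.image D).card : ℝ) ≤ ((k : ℝ) * n + 1) ^ (src q A).card := by
    have := card_values_two k n (srcU q A) (fun a : PC => d a.1) S0 hmem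
    rw [card_srcU] at this
    exact_mod_cast this
  have hLHS : ∑ a ∈ S0, D a ^ θ = ((n.choose m : ℝ) *
      (∑ x ∈ (src q A).filter (fun x => ¬ x.2 = 1), d x ^ θ) ^ (n - m) *
      (∑ x ∈ (src q A).filter (fun x => x.2 = 1), d x ^ θ) ^ m) ^ k := by
    have e0 : (n.choose m : ℝ) *
        (∑ x ∈ (src q A).filter (fun x => ¬ x.2 = 1), d x ^ θ) ^ (n - m) *
        (∑ x ∈ (src q A).filter (fun x => x.2 = 1), d x ^ θ) ^ m =
        ∑ a ∈ Wm, ∏ s, d (a s).1 ^ θ := by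
      have e3 := sum_cnt n m (srcU q A) (fun x : PC => x.1.2 = 1) fun x => d x.1 ^ θ
      have e4 := sum_srcU (q := q) A (fun x => ¬ x.2 = 1) fun x => d x ^ θ
      have e5 := sum_srcU (q := q) A (fun x => x.2 = 1) fun x => d x ^ θ
      rw [hWm]
      refine Eq.trans ?_ (Eq.trans e3.symm ?_)
      · refine congrArg₂ (· * ·) (congrArg₂ (· * ·) rfl (congrArg (· ^ (n - m)) ?_))
          (congrArg (· ^ m) ?_)
        · refine Eq.trans ?_ (e4.symm.trans ?_) <;> congr!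
        · refine Eq.trans ?_ (e5.symm.trans ?_) <;> congr!
      · congr!
    rw [e0]
    have e1 : ∀ a ∈ S0, D a ^ θ = ∏ l, ∏ s, d (a l s).1 ^ θ := by
      intro a ha
      rw [hD]
      simp only
      rw [← Real.finsetProd_rpow _ _ fun l _ => prod_nonneg fun s _ => hdU _ (hmem a ha l s)]
      refine prod_congr rfl fun l _ => ?_
      rw [← Real.finsetProd_rpow _ _ fun s _ => hdU _ (hmem a ha l s)]
    rw [sum_congr rfl e1]
    have e2 := (prod_univ_sum (fun _ : Fin k => Wm) fun _ (b : Fin n → PC) =>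
      ∏ s, d (b s).1 ^ θ).symm
    rw [hS0, e2, prod_const, card_univ, Fintype.card_fin]
  rw [← hLHS]
  refine hsum.trans ?_
  have := mul_le_mul_of_nonneg_right hval hXb0
  refine this.trans (le_of_eq ?_)
  rw [hXb]
  ring

end Pool.Agent.H5St
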