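import Pool.Agent.H5St.TensorV

/-!
# The number of the points which are reached
-/

set_option autoImplicit false

open Finset Classical

namespace Pool.Agent.H5St

open Pool.Agent.PlunTwo Pool.Agent.PlunRow

theorem im_zero_ge {q k : ℕ} {B : Set (ℕ × ℕ)} {Z : Finset (ℕ × ℕ)} {z : ℕ}
    (h : z < q + 1 → (z, 0) ∈ Z) :
    row 0 (kfold B k) (q + 1 - z) ≤ (im q k B 0 Z).card := by
  refine card_le_card_of_injOn (fun x => z + x) ?_ ?_
  · intro x hx
    rw [mem_coe, mem_filter, mem_range] at hx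
    rw [mem_coe, im, mem_filter, mem_range]
    refine ⟨?_, (z, 0), h (by omega), (x, 0), hx.2, rfl⟩
    change z + x < q + 1
    omega
  · intro x _ y _ hxy
    exact Nat.add_left_cancel hxy

theorem im_one_ge {q k : ℕ} {B : Set (ℕ × ℕ)} {Z : Finset (ℕ × ℕ)} {z : ℕ}
    (h : z < q + 1 → (z, 1) ∈ Z) :
    row 0 (kfold B k) (q + 1 - z) ≤ (im q k B 1 Z).card := by
  refine card_le_card_of_injOn (fun x => z + x) ?_ ?_
  · intro x hx
    rw [mem_coe, mem_filter, mem_range] at hx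
    rw [mem_coe, im, mem_filter, mem_range]
    refine ⟨?_, (z, 1), h (by omega), (x, 0), hx.2, rfl⟩
    change z + x < q + 1
    omega
  · intro x _ y _ hxy
    exact Nat.add_left_cancel hxy

theorem im_one_ge' {q k : ℕ} {B : Set (ℕ × ℕ)} {Z : Finset (ℕ × ℕ)} {z0 z1 : ℕ}
    (hz : z0 ≤ z1) (hz1 : z1 ≤ q + 1) (h0 : z0 < q + 1 → (z0, 0) ∈ Z)
    (h1 : z1 < q + 1 → (z1, 1) ∈ Z) :
    row 1 (kfold B k) (z1 - z0) + row 0 (kfold B k) (q + 1 - z1) ≤ (im q k B 1 Z).card := by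
  have hsplit : ((im q k B 1 Z).filter fun x => x < z1).card +
      ((im q k B 1 Z).filter fun x => ¬ x < z1).card = (im q k B 1 Z).card :=
    card_filter_add_card_filter_not _
  rw [← hsplit]
  refine add_le_add ?_ ?_
  · refine card_le_card_of_injOn (fun x => z0 + x) ?_ ?_
    · intro x hx
      rw [mem_coe, mem_filter, mem_range] at hx
      rw [mem_coe, mem_filter, im, mem_filter, mem_range]
      refine ⟨⟨?_, (z0, 0), h0 (by omega), (x, 1), hx.2, ?_⟩, ?_⟩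
      · change z0 + x < q + 1
        omega
      · change (z0 + x, 0 + 1) = (z0 + x, 1)
        rw [zero_add]
      · change z0 + x < z1
        omega
    · intro x _ y _ hxy
      exact Nat.add_left_cancel hxy
  · refine card_le_card_of_injOn (fun x => z1 + x) ?_ ?_
    · intro x hx
      rw [mem_coe, mem_filter, mem_range] at hx
      rw [mem_coe, mem_filter, im, mem_filter, mem_range]
      refine ⟨⟨?_, (z1, 1), h1 (by omega), (x, 0), hx.2, rfl⟩, ?_⟩
      · change z1 + x < q + 1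
        omega
      · change ¬ z1 + x < z1
        omega
    · intro x _ y _ hxy
      exact Nat.add_left_cancel hxy

/-- The hypothesis on `k B`: it is dense on all staircases. -/
def Stair (q : ℕ) (K : Set (ℕ × ℕ)) (δ : ℝ) : Prop :=
  ∀ a ≤ q + 1, ∀ b ≤ a, δ * ((a : ℝ) + b) ≤ (row 0 K a : ℝ) + row 1 K b

/-- The three lower bounds for the weighted number of the reached points. -/
theorem reach {q k : ℕ} {B : Set (ℕ × ℕ)} {Z : Finset (ℕ × ℕ)} {z0 z1 : ℕ} {δ θ s : ℝ}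
    (hδ : 0 ≤ δ) (hθ0 : 0 ≤ θ) (hθ1 : θ ≤ 1) (hs : 0 ≤ s)
    (hK : Stair q (kfold B k) δ) (hz0 : z0 ≤ q + 1) (hz1 : z1 ≤ q + 1)
    (h0 : z0 < q + 1 → (z0, 0) ∈ Z) (h1 : z1 < q + 1 → (z1, 1) ∈ Z) :
    (δ * ((θ + s) * (((q + 1 : ℕ) : ℝ) - z0) + (1 + s) * (((q + 1 : ℕ) : ℝ) - z1)) ≤
      (θ + s) * (im q k B 0 Z).card + (1 + s) * (im q k B 1 Z).card) ∧
    (z0 ≤ z1 → z1 - z0 ≤ q + 1 - z1 →
      δ * ((1 + 2 * s + θ) * (((q + 1 : ℕ) : ℝ) - z0)) ≤
      (θ + s) * (im q k B 0 Z).card + (1 + s) * (im q k B 1 Z).card) ∧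
    (z0 ≤ z1 → q + 1 - z1 ≤ z1 - z0 →
      δ * (2 * (θ + s) * (((q + 1 : ℕ) : ℝ) - z0) + 2 * (1 - θ) * (((q + 1 : ℕ) : ℝ) - z1)) ≤
      (θ + s) * (im q k B 0 Z).card + (1 + s) * (im q k B 1 Z).card) := by
  have hr0 : ∀ l ≤ q + 1, δ * (l : ℝ) ≤ row 0 (kfold B k) l := by
    intro l hl
    have := hK l hl 0 (Nat.zero_le _)
    have e : row 1 (kfold B k) 0 = 0 := by simp [row]
    rw [e] at this
    simpa using this
  have i0 : (row 0 (kfold B k) (q + 1 - z0) : ℝ) ≤ (im q k B 0 Z).card := by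
    exact_mod_cast im_zero_ge h0
  have i1 : (row 0 (kfold B k) (q + 1 - z1) : ℝ) ≤ (im q k B 1 Z).card := by
    exact_mod_cast im_one_ge h1
  have r0 := hr0 (q + 1 - z0) (by omega)
  have r1 := hr0 (q + 1 - z1) (by omega)
  rw [Nat.cast_sub hz0] at r0
  rw [Nat.cast_sub hz1] at r1
  have p1 : 0 ≤ θ + s := by linarith
  have p2 : 0 ≤ 1 + s := by linarith
  have p3 : 0 ≤ 1 - θ := by linarith
  refine ⟨?_, fun hz h => ?_, fun hz h => ?_⟩
  · have e1 := mul_le_mul_of_nonneg_left (r0.trans i0) p1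
    have e2 := mul_le_mul_of_nonneg_left (r1.trans i1) p2
    nlinarith
  · have i2 : (row 1 (kfold B k) (z1 - z0) : ℝ) + row 0 (kfold B k) (q + 1 - z1) ≤
        (im q k B 1 Z).card := by exact_mod_cast im_one_ge' hz hz1 h0 h1
    have k1 := hK (q + 1 - z1) (by omega) (z1 - z0) h
    rw [Nat.cast_sub hz1, Nat.cast_sub hz] at k1
    have e1 := mul_le_mul_of_nonneg_left (r0.trans i0) p1
    have e2 := mul_le_mul_of_nonneg_left (show δ * (((q + 1 : ℕ) : ℝ) - z0) ≤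
      ((im q k B 1 Z).card : ℝ) by linarith) p2
    nlinarith
  · have i2 : (row 1 (kfold B k) (z1 - z0) : ℝ) + row 0 (kfold B k) (q + 1 - z1) ≤
        (im q k B 1 Z).card := by exact_mod_cast im_one_ge' hz hz1 h0 h1
    have k1 := hK (q + 1 - z0) (by omega) (z1 - z0) (by omega)
    have k2 := hK (q + 1 - z1) (by omega) (q + 1 - z1) le_rfl
    have k3 : (row 1 (kfold B k) (q + 1 - z1) : ℝ) ≤ row 1 (kfold B k) (z1 - z0) := by
      exact_mod_cast row_mono 1 _ h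
    rw [Nat.cast_sub hz0, Nat.cast_sub hz] at k1
    rw [Nat.cast_sub hz1] at k2
    have e0 := mul_le_mul_of_nonneg_left i0 p1
    have e1 := mul_le_mul_of_nonneg_left k1 p1
    have e2 := mul_le_mul_of_nonneg_left (show δ * ((((q + 1 : ℕ) : ℝ) - z1) +
      (((q + 1 : ℕ) : ℝ) - z1)) ≤ (row 0 (kfold B k) (q + 1 - z1) : ℝ) +
        row 1 (kfold B k) (z1 - z0) by linarith) p3
    have e3 := mul_le_mul_of_nonneg_left r1 p1
    have e4 := mul_le_mul_of_nonneg_left i2 p2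
    nlinarith

end Pool.Agent.H5St
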