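import Pool.Agent.PlunRow.Tensor

/-!
# The labelled tensor power with several copies of the used points

The used points of the row `0` have `c0` copies and those of the row `1` have `c1` copies; the copy
is chosen together with the change of the row.
-/

set_option autoImplicit false

open Finset Classical

namespace Pool.Agent.H5St

open Pool.Agent.PlunTwo Pool.Agent.PlunRow

/-- A point with the number of its copy. -/
abbrev PC : Type := (ℕ × ℕ) × ℕ

/-- The sources, with the copy `0`. -/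
noncomputable def srcU (q : ℕ) (A : Set (ℕ × ℕ)) : Finset PC :=
  (src q A).image fun x => (x, 0)

/-- The targets. -/
noncomputable def tgtU (q c0 c1 : ℕ) : Finset PC :=
  ((box q 1) ×ˢ range (c0 + c1)).filter fun y => y.2 < if y.1.2 = 1 then c1 else c0

theorem mem_tgtU {q c0 c1 : ℕ} {y : PC} :
    y ∈ tgtU q c0 c1 ↔ y.1 ∈ box q 1 ∧ y.2 < if y.1.2 = 1 then c1 else c0 := by
  rw [tgtU, mem_filter, mem_product, mem_range]
  constructor
  · rintro ⟨⟨h1, -⟩, h2⟩
    exact ⟨h1, h2⟩
  · rintro ⟨h1, h2⟩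
    refine ⟨⟨h1, ?_⟩, h2⟩
    split_ifs at h2 <;> omega

section

variable (q c0 c1 n m : ℕ) (A B : Set (ℕ × ℕ))

/-- The steps which do not change the rows. -/
noncomputable def B0U : Finset (Fin n → PC) :=
  Fintype.piFinset fun _ => ((box q 1).filter fun x => x ∈ B ∧ x.2 = 0) ×ˢ {0}

/-- The steps which may change the rows. -/
noncomputable def BsU : Finset (Fin n → PC) :=
  Fintype.piFinset fun _ => ((box q 1).filter fun x => x ∈ B) ×ˢ range (c0 + c1)

/-- The unused blocks at level `i`. -/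
noncomputable def UbU (i : ℕ) : Finset (Fin n → PC) :=
  (Fintype.piFinset fun _ =>
    ((box q 1).filter fun x => x ∈ msum A (kfold B i)) ×ˢ ({0} : Finset ℕ)).filter fun z =>
    cnt (fun x : PC => x.1.2 = 1) z = m

/-- The used blocks at level `i`. -/
noncomputable def VbU (i : ℕ) : Finset (Fin n → PC) :=
  Fintype.piFinset fun _ => (tgtU q c0 c1).filter fun x => x.1 ∈ msum A (kfold B i)

theorem regU : Reg (B0U q n B) (BsU q c0 c1 n B) (UbU q n m A B) (VbU q c0 c1 n A B)
    (fun z => (∀ s, (z s).1 ∈ box q 1 ∧ (z s).2 = 0) ∧ cnt (fun x : PC => x.1.2 = 1) z = m)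
    (fun z => ∀ s, z s ∈ tgtU q c0 c1) (fun i z => ∀ s, (z s).1 ∈ msum A (kfold B i)) where
  memU i z := by
    rw [UbU, mem_filter, Fintype.mem_piFinset]
    constructor
    · rintro ⟨h1, h2⟩
      have h3 : ∀ s, ((z s).1 ∈ box q 1 ∧ (z s).1 ∈ msum A (kfold B i)) ∧ (z s).2 = 0 := by
        intro s
        have := mem_product.1 (h1 s)
        exact ⟨mem_filter.1 this.1, mem_singleton.1 this.2⟩
      exact ⟨⟨fun s => ⟨(h3 s).1.1, (h3 s).2⟩, h2⟩, fun s => (h3 s).1.2⟩
    · rintro ⟨⟨h1, h2⟩, h3⟩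
      refine ⟨fun s => ?_, h2⟩
      rw [mem_product, mem_filter, mem_singleton]
      exact ⟨⟨(h1 s).1, h3 s⟩, (h1 s).2⟩
  memV i z := by
    rw [VbU, Fintype.mem_piFinset]
    constructor
    · intro h1
      exact ⟨fun s => (mem_filter.1 (h1 s)).1, fun s => (mem_filter.1 (h1 s)).2⟩
    · rintro ⟨h1, h3⟩ s
      exact mem_filter.2 ⟨h1 s, h3 s⟩
  hU z β hβ h := by
    rw [B0U, Fintype.mem_piFinset] at hβ
    refine ⟨fun s => ⟨down_box q 1 _ (β s).1 (h.1 s).1, ?_⟩, ?_⟩
    · have := (h.1 s).2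
      simp only [Pi.add_apply, Prod.snd_add] at this
      omega
    · rw [← h.2]
      unfold cnt
      congr 1
      ext s
      have := (mem_filter.1 (mem_product.1 (hβ s)).1).2.2
      simp [this]
  hV z β hβ h s := by
    rw [B0U, Fintype.mem_piFinset] at hβ
    have h1 := h s
    rw [mem_tgtU] at h1 ⊢
    have h2 := mem_product.1 (hβ s)
    have h3 := (mem_filter.1 h2.1).2.2
    have h4 := mem_singleton.1 h2.2
    refine ⟨down_box q 1 _ (β s).1 h1.1, ?_⟩
    have h5 := h1.2
    simp only [Pi.add_apply, Prod.snd_add, Prod.fst_add, h3, h4, add_zero] at h5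
    exact h5
  hUV z hz β hβ w h := by
    rw [B0U, Fintype.mem_piFinset] at hβ
    refine ⟨fun s => ⟨down_box q 1 _ (w s).1 (mem_tgtU.1 (h s)).1, ?_⟩, ?_⟩
    · have h2 := mem_product.1 (hβ s)
      have h4 := mem_singleton.1 h2.2
      have h5 := (hz.1 s).2
      simp only [Pi.add_apply, Prod.snd_add, h4, h5, add_zero]
    · rw [← hz.2]
      unfold cnt
      congr 1
      ext s
      have := (mem_filter.1 (mem_product.1 (hβ s)).1).2.2
      simp [this]
  hC0 i z hz β hβ s := by
    rw [B0U, Fintype.mem_piFinset] at hβ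
    exact msum_kfold_succ (hz s) (mem_filter.1 (mem_product.1 (hβ s)).1).2.1
  hCs i z hz β hβ s := by
    rw [BsU, Fintype.mem_piFinset] at hβ
    exact msum_kfold_succ (hz s) (mem_filter.1 (mem_product.1 (hβ s)).1).2

end

theorem conn_ofU {q c0 c1 n k : ℕ} {B : Set (ℕ × ℕ)} {a y : Fin n → PC} {l : ℕ} (hl : l < k)
    (ha : ∀ s, (a s).2 = 0) (hy : ∀ s, y s ∈ tgtU q c0 c1)
    (h : ∀ s, ∃ w ∈ kfold B k, (a s).1 + w = (y s).1) :
    Conn k (B0U q n B) (BsU q c0 c1 n B) l a y := by
  choose w hw hw2 using h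
  have hrow : ∀ s, (w s).2 ≤ 1 := by
    intro s
    have h1 := (mem_tgtU.1 (hy s)).1
    rw [← hw2 s, PlunTwo.box, mem_product, mem_range, mem_range, Prod.snd_add] at h1
    omega
  choose g hg1 hg2 hg3 using fun s => kfold_label (hw s) (hrow s) hl
  have hbox : ∀ s, ∀ t < k, g s t ∈ box q 1 := by
    intro s t ht
    have h1 := (mem_tgtU.1 (hy s)).1
    rw [← hw2 s, add_comm] at h1
    have h2 := down_box q 1 _ _ h1
    rw [← hg3 s, ← add_sum_erase _ _ (mem_range.2 ht)] at h2
    exact down_box q 1 _ _ h2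
  refine ⟨fun t s => (g s t, if t = l then (y s).2 else 0), ?_, fun t ht hne => ?_, ?_⟩
  · rw [BsU, Fintype.mem_piFinset]
    intro s
    rw [mem_product, mem_filter, mem_range]
    refine ⟨⟨hbox s l hl, hg1 s l hl⟩, ?_⟩
    have := (mem_tgtU.1 (hy s)).2
    simp only [if_true]
    split_ifs at this <;> omega
  · rw [B0U, Fintype.mem_piFinset]
    intro s
    rw [mem_product, mem_filter, mem_singleton]
    exact ⟨⟨hbox s t ht, hg1 s t ht, hg2 s t ht hne⟩, by simp [hne]⟩
  · funext s
    rw [Pi.add_apply, Finset.sum_apply]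
    refine Prod.ext ?_ ?_
    · rw [Prod.fst_add, Prod.fst_sum]
      simp only
      rw [hg3 s, hw2 s]
    · rw [Prod.snd_add, Prod.snd_sum, ha s, zero_add]
      simp only
      rw [Finset.sum_ite_eq' (range k) l fun _ => (y s).2, if_pos (mem_range.2 hl)]

theorem card_tgtU (q c0 c1 : ℕ) (P : ℕ × ℕ → Prop) :
    ((tgtU q c0 c1).filter fun x => P x.1).card =
      c0 * ((range (q + 1)).filter fun x => P (x, 0)).card +
        c1 * ((range (q + 1)).filter fun x => P (x, 1)).card := by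
  have h : (tgtU q c0 c1).filter (fun x => P x.1) =
      (((range (q + 1)).filter fun x => P (x, 0)) ×ˢ range c0).image
        (fun x => (((x.1, 0), x.2) : PC)) ∪
      (((range (q + 1)).filter fun x => P (x, 1)) ×ˢ range c1).image
        (fun x => (((x.1, 1), x.2) : PC)) := by
    ext ⟨⟨x, r⟩, c⟩
    rw [mem_filter, mem_tgtU, mem_union, mem_image, mem_image, PlunTwo.box, mem_product, mem_range,
      mem_range]
    simp only [Prod.exists, mem_product, mem_filter, mem_range, Prod.mk.injEq]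
    constructor
    · rintro ⟨⟨⟨h1, h2⟩, h3⟩, h4⟩
      have : r = 0 ∨ r = 1 := by omega
      rcases this with rfl | rfl
      · left
        rw [if_neg (by norm_num)] at h3
        exact ⟨x, c, ⟨⟨h1, h4⟩, h3⟩, ⟨rfl, rfl⟩, rfl⟩
      · right
        rw [if_pos rfl] at h3
        exact ⟨x, c, ⟨⟨h1, h4⟩, h3⟩, ⟨rfl, rfl⟩, rfl⟩
    · rintro (⟨x', c', ⟨⟨h1, h4⟩, h3⟩, ⟨rfl, rfl⟩, rfl⟩ | ⟨x', c', ⟨⟨h1, h4⟩, h3⟩, ⟨rfl, rfl⟩, rfl⟩)
      · refine ⟨⟨⟨h1, by norm_num⟩, ?_⟩, h4⟩
        rw [if_neg (by norm_num)]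
        exact h3
      · refine ⟨⟨⟨h1, by norm_num⟩, ?_⟩, h4⟩
        rw [if_pos rfl]
        exact h3
  rw [h, card_union_of_disjoint, card_image_of_injective, card_image_of_injective, card_product,
    card_product, card_range, card_range, mul_comm c0, mul_comm c1]
  · rintro ⟨x, c⟩ ⟨x', c'⟩ h
    simp only [Prod.mk.injEq] at h
    exact Prod.ext h.1.1 h.2
  · rintro ⟨x, c⟩ ⟨x', c'⟩ h
    simp only [Prod.mk.injEq] at h
    exact Prod.ext h.1.1 h.2
  · rw [disjoint_left]
    rintro a ha ha'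
    obtain ⟨x, -, rfl⟩ := mem_image.1 ha
    obtain ⟨x', -, h'⟩ := mem_image.1 ha'
    simp only [Prod.mk.injEq] at h'
    omega

theorem card_VbU (q c0 c1 n : ℕ) (A B : Set (ℕ × ℕ)) (j : ℕ) :
    (VbU q c0 c1 n A B j).card = (c0 * row 0 (msum A (kfold B j)) (q + 1) +
      c1 * row 1 (msum A (kfold B j)) (q + 1)) ^ n := by
  rw [VbU, Fintype.card_piFinset, prod_const, card_univ, Fintype.card_fin]
  congr 1
  exact card_tgtU q c0 c1 fun x => x ∈ msum A (kfold B j)

theorem card_UbU (q n m : ℕ) (A B : Set (ℕ × ℕ)) (j : ℕ) :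
    ((UbU q n m A B j).card : ℝ) = (n.choose m : ℝ) *
      (row 0 (msum A (kfold B j)) (q + 1) : ℝ) ^ (n - m) *
        (row 1 (msum A (kfold B j)) (q + 1) : ℝ) ^ m := by
  rw [UbU, card_cnt]
  have h : ∀ p : ℕ × ℕ → Prop,
      ((((box q 1).filter fun x => x ∈ msum A (kfold B j)) ×ˢ ({0} : Finset ℕ)).filter
        fun x : PC => p x.1).card =
      (((box q 1).filter fun x => x ∈ msum A (kfold B j)).filter p).card := by
    intro p
    have e : (((box q 1).filter fun x => x ∈ msum A (kfold B j)) ×ˢ ({0} : Finset ℕ)).filter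
        (fun x : PC => p x.1) =
        (((box q 1).filter fun x => x ∈ msum A (kfold B j)).filter p) ×ˢ ({0} : Finset ℕ) := by
      ext x
      simp only [mem_filter, mem_product]
      tauto
    rw [e, card_product, card_singleton, mul_one]
  have h0 : ((((box q 1).filter fun x => x ∈ msum A (kfold B j)) ×ˢ ({0} : Finset ℕ)).filter
        fun x : PC => ¬ x.1.2 = 1).card = row 0 (msum A (kfold B j)) (q + 1) := by
    refine Eq.trans ?_ ((h fun x => ¬ x.2 = 1).trans ?_)
    · congr!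
    · rw [filter_filter, box_card, sum_range_succ, sum_range_one]
      simp [row]
  have h1 : ((((box q 1).filter fun x => x ∈ msum A (kfold B j)) ×ˢ ({0} : Finset ℕ)).filter
        fun x : PC => x.1.2 = 1).card = row 1 (msum A (kfold B j)) (q + 1) := by
    refine Eq.trans ?_ ((h fun x => x.2 = 1).trans ?_)
    · congr!
    · rw [filter_filter, box_card, sum_range_succ, sum_range_one]
      simp [row]
  congr 2
  · congr 1
    congr 1
    rw [← h0]
    congr!
  · rw [← h1]
    congr!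

end Pool.Agent.H5St
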